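import Mathlib
import Pool.Agent.U178.KD.Br
import Pool.Agent.W602.GT.Cls

/-!
# The infinitesimal Kobayashi metric for maps of bounded complexity

Let `X` be a closed subset of the projective space, with any singularities. We consider the
holomorphic maps from domains in the complex plane to `X` of complexity at most `(s, r, e, d)`: on
some nonempty open set they have homogeneous coordinates which are polynomials in `z`, `1 / q(z)` and
the solutions of `s` successive linear systems `y_l' = A_l y_l`, of size `r`, where the entries of
`A_l` are polynomials in `z`, `1 / q(z)` and the entries of `y_1, ..., y_{l-1}`.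

Then `X` contains no rational curves if and only if for all `(s, r, e, d)` the infinitesimal Kobayashi
metric of `X`, defined with the holomorphic maps of complexity at most `(s, r, e, d)` from discs, is
bounded below by a positive multiple of the Fubini-Study metric, and if and only if the entire curves
of bounded complexity in `X` are constant. These conditions hold if all positive-dimensional
subvarieties of `X` are of general type, and also if `X` is hyperbolic: this is the statement of
Lang's conjecture for these maps. For fixed `(s, r, e, d)` it is enough that there are no rational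
curves of a degree bounded in terms of the dimension and the degrees of the equations, and the bound
for the metric is uniform in compact families.

Proof. By the library `Pool.Agent.V1153.UG` a map of bounded complexity to a variety without rational
curves of bounded degree is given by algebraic functions of bounded degree. If there were no bound
for the derivatives, a reparametrization by affine maps (Brody, Zalcman) would give a nonconstant
entire curve as a limit; the equations for the algebraic functions, normalized, have a limit too, and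
the entire curve is a rational curve of bounded degree.
-/

set_option autoImplicit false

namespace Pool.Agent.Results.MP_c6ff8d_ag.BoundedComplexityKobayashi

open MvPolynomial Set Metric
open Pool.Agent.U178.KD
open Pool.Agent.W602.GT (AllGeneralType GmCurve sub_of_gm)

variable {n : ℕ} {ι : Type}

/-- all holomorphic maps from the complex plane to `X` are constant -/
def BrodyHyperbolic (F : ι → MvPolynomial (Fin (n + 1)) ℂ) : Prop :=
  ∀ f, HolMap F univ f → ∀ z w, ∃ c : ℂ, f w = c • f z

theorem gmCurve {F : ι → MvPolynomial (Fin (n + 1)) ℂ} (hF : ∀ i, ∃ a, (F i).IsHomogeneous a)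
    {N : ℕ} {P : Fin (n + 1) → Polynomial ℂ} (hP : RationalCurve F N P) :
    ∃ P', GmCurve F P' := by
  obtain ⟨g, P', hg, hPP, hpr⟩ := ((rational_iff hF).1 hP).prim (isHomogeneous_one _ _)
  refine ⟨P', fun t _ h0 => ?_, fun t _ i => ?_, ?_⟩
  · obtain ⟨j, hj⟩ := hpr.ne t
    exact hj (congrFun h0 j)
  · exact hpr.mem t (F i) (Ideal.subset_span ⟨i, rfl⟩) (hF i)
  · obtain ⟨s, t, j, k, hs, ht, hst⟩ := hpr.nc
    refine ⟨s, t, hs, ht, ?_⟩
    rw [LinearIndependent.pair_iff]
    intro a b hab
    have hj := congrFun hab j
    have hk := congrFun hab k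
    simp only [Pi.add_apply, Pi.smul_apply, smul_eq_mul, Pi.zero_apply] at hj hk
    have h1 : (P' j).eval s * (P' k).eval t - (P' k).eval s * (P' j).eval t ≠ 0 :=
      sub_ne_zero.2 hst
    constructor
    · have h2 : a * ((P' j).eval s * (P' k).eval t - (P' k).eval s * (P' j).eval t) = 0 := by
        linear_combination (P' k).eval t * hj - (P' j).eval t * hk
      exact (mul_eq_zero.1 h2).resolve_right h1
    · have h2 : b * ((P' j).eval s * (P' k).eval t - (P' k).eval s * (P' j).eval t) = 0 := by
        linear_combination (P' j).eval s * hk - (P' k).eval s * hj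
      exact (mul_eq_zero.1 h2).resolve_right h1

theorem part1 (n D s r e d : ℕ) : ∃ N : ℕ, ∀ (T : Type) [TopologicalSpace T] (𝒦 : Set T),
    IsCompact 𝒦 → ∀ (ι : Type) (F : T → ι → MvPolynomial (Fin (n + 1)) ℂ) (a : ι → ℕ),
      (∀ t i, (F t i).IsHomogeneous (a i)) → (∀ i, a i ≤ D) →
      (∀ i, Continuous fun p : T × (Fin (n + 1) → ℂ) => eval p.2 (F p.1 i)) →
      (∀ t ∈ 𝒦, ∀ P, ¬ RationalCurve (F t) N P) →
        ∃ C : ℝ, ∀ t ∈ 𝒦, KobayashiBound (F t) s r e d C := by
  obtain ⟨N, hN⟩ := kob n D s r e d
  refine ⟨N, fun T _ 𝒦 h𝒦 ι F a hF ha hFc hno => ?_⟩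
  obtain ⟨C, -, hC⟩ := hN T 𝒦 h𝒦 ι Empty F (fun _ i => i.elim) a (fun i => i.elim) hF ha
    (fun _ i => i.elim) (by simp) hFc (fun i => i.elim) (fun t ht J P hP => by
      have hJ : J = ∅ := Finset.eq_empty_of_isEmpty J
      subst hJ
      apply hno t ht P
      rw [rational_iff (fun i => ⟨a i, hF t i⟩)]
      simpa using hP)
  refine ⟨C, fun t ht U f hf hc p R hR hpU => ?_⟩
  refine hC t ht U f ⟨hf.opn, hf.con, hf.diff, hf.ne, ?_, fun z _ => ?_⟩ ?_ p R hR hpU
  · rintro z hz _ ⟨i, rfl⟩
    exact hf.mem z hz i
  · simp
  · simpa using hc.bdd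

theorem fixed {D : ℕ} {F : ι → MvPolynomial (Fin (n + 1)) ℂ}
    (hF : ∀ i, ∃ a ≤ D, (F i).IsHomogeneous a) (hno : ∀ N P, ¬ RationalCurve F N P)
    (s r e d : ℕ) : ∃ C, KobayashiBound F s r e d C := by
  obtain ⟨N, hN⟩ := part1 n D s r e d
  choose a ha hFa using hF
  obtain ⟨C, hC⟩ := hN Unit univ isCompact_univ ι (fun _ => F) a (fun _ i => hFa i) ha
    (fun i => (MvPolynomial.continuous_eval (F i)).comp continuous_snd) (fun _ _ P => hno N P)
  exact ⟨C, hC () (mem_univ _)⟩

/-- (1) For all `n`, `D` and `(s, r, e, d)` there is `N` such that for every compact family of closed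
subsets `X_t`, `t ∈ 𝒦`, of the projective space `ℙ ^ n`, given by forms of degree at most `D`
depending continuously on `t`, the following holds: if the `X_t`, `t ∈ 𝒦`, contain no rational curves
of degree at most `N`, then there is one constant `C` such that the infinitesimal Kobayashi metric of
each `X_t`, for the maps of complexity at most `(s, r, e, d)`, is at least `1 / C` times the
Fubini-Study metric.

Let `X = {F = 0}` be a closed subset of `ℙ ^ n` given by forms of bounded degree.

(2) If `X` contains a rational curve of degree at most `N` then there is no such bound for the maps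
of complexity at most `(s, r, N, d)`, for all `s`, `r` and `d`.

(3) The following conditions are equivalent: `X` contains no rational curves; the entire curves of
bounded complexity in `X` are constant; for all `(s, r, e, d)` the infinitesimal Kobayashi metric for
the maps of complexity at most `(s, r, e, d)` is bounded below; for all `e` this holds for the maps
given on an open set by polynomials of degree at most `e`.

(4) The conditions in (3) hold if all positive-dimensional closed subvarieties of `X` are of general
type, and also if `X` is Brody hyperbolic. -/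
theorem result (n : ℕ) :
    (∀ D s r e d : ℕ, ∃ N : ℕ, ∀ (T : Type) [TopologicalSpace T] (𝒦 : Set T), IsCompact 𝒦 →
      ∀ (ι : Type) (F : T → ι → MvPolynomial (Fin (n + 1)) ℂ) (a : ι → ℕ),
        (∀ t i, (F t i).IsHomogeneous (a i)) → (∀ i, a i ≤ D) →
        (∀ i, Continuous fun p : T × (Fin (n + 1) → ℂ) => eval p.2 (F p.1 i)) →
        (∀ t ∈ 𝒦, ∀ P, ¬ RationalCurve (F t) N P) →
          ∃ C : ℝ, ∀ t ∈ 𝒦, KobayashiBound (F t) s r e d C) ∧
    ∀ (D : ℕ) (ι : Type) (F : ι → MvPolynomial (Fin (n + 1)) ℂ),
      (∀ i, ∃ a ≤ D, (F i).IsHomogeneous a) →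
        (∀ N P, RationalCurve F N P → ∀ (s r d : ℕ) (C : ℝ), ¬ KobayashiBound F s r N d C) ∧
        [∀ N P, ¬ RationalCurve F N P,
          ∀ (s r e d : ℕ) (f : ℂ → Fin (n + 1) → ℂ), HolMap F univ f →
            Complexity s r e d univ f → ∀ z w, ∃ c : ℂ, f w = c • f z,
          ∀ s r e d : ℕ, ∃ C : ℝ, KobayashiBound F s r e d C,
          ∀ e : ℕ, ∃ C : ℝ, KobayashiBound F 0 0 e 0 C].TFAE ∧
        (AllGeneralType F ∨ BrodyHyperbolic F →
          ∀ s r e d : ℕ, ∃ C : ℝ, KobayashiBound F s r e d C) := by
  refine ⟨part1 n, fun D ι F hF => ?_⟩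
  have hF' : ∀ i, ∃ a, (F i).IsHomogeneous a := fun i => by
    obtain ⟨a, -, ha⟩ := hF i
    exact ⟨a, ha⟩
  refine ⟨fun N P hP s r d C => not_bound hF' hP s r d C, ?_, ?_⟩
  · tfae_have 1 → 3 := fun h s r e d => fixed hF h s r e d
    tfae_have 3 → 4 := fun h e => h 0 0 e 0
    tfae_have 4 → 1 := by
      intro h N P hP
      obtain ⟨C, hC⟩ := h N
      exact not_bound hF' hP 0 0 0 C hC
    tfae_have 3 → 2 := by
      intro h s r e d f hf hc z w
      obtain ⟨C, hC⟩ := h s r e d
      refine const_of_fubini isOpen_univ isPreconnected_univ hf.diff hf.ne (fun a _ => ?_)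
        (mem_univ z) (mem_univ w)
      by_contra hcon
      push Not at hcon
      have h1 := hC univ f hf hc a ((|C| + 1) / Pool.Agent.NH31.KR.fubini (f a) (deriv f a))
        (by positivity) (subset_univ _)
      rw [div_mul_cancel₀ _ hcon.ne'] at h1
      have h2 := le_abs_self C
      linarith
    tfae_have 2 → 1 := by
      intro h N P hP
      obtain ⟨f, hf, hc, hnc⟩ := exists_line hF' hP 0 0 0
      exact hnc (h 0 0 N 0 f hf hc)
    tfae_finish
  · intro h
    refine fixed hF fun N P hP => ?_
    rcases h with h | h
    · obtain ⟨P', hP'⟩ := gmCurve hF' hP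
      obtain ⟨K, _, _, y, hy, hgt⟩ := sub_of_gm (fun i => hF' i) hP'
      exact hgt (h K 1 y le_rfl hy)
    · obtain ⟨f, hf, -, hnc⟩ := exists_line hF' hP 0 0 0
      exact hnc (h f hf)

end Pool.Agent.Results.MP_c6ff8d_ag.BoundedComplexityKobayashi
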