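import Pool.Agent.U173.MP.Her

/-!
# Lang's conjecture for surfaces in varieties which carry a map with many preperiodic points

`X` is a complex projective variety of any dimension, given by its function field `K` and the homogeneous
coordinates `x` of its generic point; `coords ℂ x = ⊤` says that `K` is generated by the ratios of the
coordinates. (So for a given `K` the theorem speaks about all projective varieties birational to `X`, smooth
or not.)

`ManyPrep ℂ d B p q` (`Pool/Agent/Q103/EC/Mxv.lean`): `f = p / q` is a rational map of the projective
line over `K` of degree `d` (a family of rational maps over an open subset of `X`) with at least `B`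
preperiodic points in `P^1(K)` (preperiodic rational sections), and the moduli map from `X` to the space
`M_d` of the conjugacy classes of the maps of degree `d` is generically finite: if `f` is conjugate over an
algebraic closure of `K` to a map with coefficients algebraic over a field `F` between `ℂ` and `K`, then `K`
is algebraic over `F`.

`S` is a closed surface in `X`, given by its function field `E` and its generic point `z` (`SubOf ℂ x z`); `S = X`
is possible if `X` is a surface.

The theorem: for each `d ≥ 2` there is a `B` such that each complex projective variety `X` which carries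
such a map of degree `d` with at least `B` preperiodic points has a proper closed subset `Z = {R = 0}` such that
for all closed surfaces `S` in `X` which are not contained in `Z` the following are equivalent:

* (`KobayashiHyp`) the Kobayashi pseudodistance of `S` separates points (`S` is hyperbolic);
* (`BrodyHyp`) there are no nonconstant entire curves in `S`;
* (`PicardHyp`) every holomorphic map from the punctured disc to `S` extends to the disc;
* (`NoMero`) every meromorphic map from a space `ℂ ^ g` to `S` is constant (so are all rational maps from
  abelian varieties);
* (`NoElliptic`) every map from an elliptic curve to `S` is constant;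
* (`AlgHyp`) `S` is algebraically hyperbolic: the degree of the nonconstant maps from a curve of genus `g`
  to `S` is at most `A (2 g - 2)`;
* (`AllGeneral`) every closed subvariety of positive dimension of `S` (also `S` itself) is of general
  type;
* (`GeomHyp`) for every pointed curve the morphisms to `S` with a given value at the marked point are finite
  in number;
* there is no closed curve of geometric genus at most one in `S`;
* there is no closed curve of geometric genus at most one in `S` which is contained in `Z`.

The definitions are in `Pool/Agent/Q103/SF/Defs2.lean` and `Pool/Agent/Q103/KO/Defs.lean`.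

The last part gives examples, of dimension `2 d - 2`, for all numbers `n ≥ 3` of preperiodic points: the
components of the spaces of the maps of degree `d` with a marked point of exact period `n`.

The case where `X` is itself a surface is in the starting library (projects EC, KO and SF of helper103, with
helper24, helper95, helper111, helper239, helper285, and GT of helper41 and others): symmetric differential
forms are constructed from the preperiodic points of `f`; they imply hyperbolicity modulo finitely many
curves. Brody's theorem, Picard's theorem for curves of genus at least two and theta functions are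
proved there as well. For the surfaces in a variety of higher dimension the map `f` with its preperiodic
points is specialised to the surface (`Pool/Agent/U173/MP/Her.lean`).
-/

set_option autoImplicit false

namespace Pool.Agent.Results.MP_c6ff8d_ag.ManyPreperiodicHyperbolic

open Polynomial
open Pool.Agent.W602.GT
open Pool.Agent.TH466.QG (SubOf)
open Pool.Agent.Q103.EC (ManyPrep)
open Pool.Agent.Q103.SF

/-- **Lang's conjecture for surfaces in varieties which carry a map with many preperiodic points**: see
the explanation at the beginning of the file. -/
theorem result (d : ℕ) (hd : 2 ≤ d) :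
    (∃ B : ℕ, ∀ (K : Type) [Field K] [Algebra ℂ K] (p q : K[X]), ManyPrep ℂ d B p q →
      ∀ (M : ℕ) (x : Fin (M + 1) → K), x ≠ 0 → coords ℂ x = ⊤ →
      ∃ R : MvPolynomial (Fin (M + 1)) ℂ, IsForm R ∧ val x R ≠ 0 ∧
        ∀ (E : Type) [Field E] [Algebra ℂ E] (z : Fin (M + 1) → E), SubOf ℂ x z → val z R ≠ 0 →
          Algebra.trdeg ℂ E = (2 : ℕ) →
            List.TFAE [KobayashiHyp z, BrodyHyp z, PicardHyp z, NoMero z, NoElliptic z, AlgHyp z,
              AllGeneral z, GeomHyp z, lowCurves z = ∅, ∀ V ∈ lowCurves z, R ∉ V]) ∧
    ∀ n : ℕ, 3 ≤ n → ∃ (K : Type) (_ : Field K) (_ : Algebra ℂ K) (p q : K[X]),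
      ManyPrep ℂ d n p q ∧ Algebra.trdeg ℂ K = (2 * d - 2 : ℕ) := by
  refine ⟨?_, Pool.Agent.Q103.EC.exists_many d hd⟩
  obtain ⟨B, hB⟩ := Pool.Agent.U173.MP.surf_sub d hd
  refine ⟨B, fun K _ _ p q h M x hx hgen => ?_⟩
  obtain ⟨R, h1, h2, h3⟩ := hB K p q h M x hx hgen
  refine ⟨R, h1, h2, fun E _ _ z hz hzR htr => ?_⟩
  obtain ⟨-, -, g3, g4⟩ := h3 E z hz hzR htr
  tfae_have 1 ↔ 2 := g4.out 0 1
  tfae_have 2 ↔ 3 := g4.out 1 2
  tfae_have 3 ↔ 4 := g4.out 2 3
  tfae_have 4 ↔ 5 := g4.out 3 4
  tfae_have 5 ↔ 6 := g4.out 4 5
  tfae_have 6 ↔ 7 := g4.out 5 6
  tfae_have 7 ↔ 8 := g4.out 6 7
  tfae_have 8 ↔ 9 := g4.out 7 8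
  tfae_have 9 → 10 := by
    intro h0 V hV
    rw [h0] at hV
    exact absurd hV (Set.notMem_empty V)
  tfae_have 10 → 9 := by
    intro h0
    rw [Set.eq_empty_iff_forall_notMem]
    intro V hV
    exact h0 V hV (g3 V hV)
  tfae_finish

end Pool.Agent.Results.MP_c6ff8d_ag.ManyPreperiodicHyperbolic
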