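import Pool.Agent.U207.QC.Tpl

/-!
# Hyperbolicity and subvarieties of general type: intersections of quadrics suffice

(1) Let `X = V(S)` be any projective variety in `P^n`, `n ≥ 1` (any dimension and any singularities),
given by forms of degree at most `d`, `d ≥ 3`, and `v : P^n → P^N` the Veronese embedding of degree `d`.
For all `c ≥ (2 (N + 1)^3 + 6 N + 5)^2` there are quadratic forms `P_i` and linear forms `ℓ_i`, `i < c`,
such that the covering of `P^N` with group `(ℤ/2)^c`

`Y : x_i^2 = P_i(h_0, …, h_N), i < c`, in `P^{N+c}`,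

is a smooth complete intersection of `c` quadrics, `P_i = ℓ_i^2` on `v(X)`, so that `Y` contains the
`2^c` copies `x_i = ± ℓ_i(h)`, `h ∈ v(X)`, of `X`, all nonconstant entire curves in `Y` lie on these
copies, and all closed subvarieties of `Y` of positive dimension which do not lie over `v(X)` are of
general type. So `Y` is hyperbolic if and only if `X` is hyperbolic in the sense of Brody, and all
positive dimensional closed subvarieties of `Y` are of general type if and only if those of `X` are.

(2) Let `E N` be infinite sets of numbers. Both directions of Q1 (if `X` is hyperbolic, then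
all its subvarieties are of general type; if all its subvarieties are of general type, then `X` is
hyperbolic) for all closed subsets `X` of projective spaces (smooth or not) are
equivalent to the same implications for these smooth `Y` with `c ∈ E N`. So each direction of Q1 for all
projective manifolds is equivalent to both statements.

Proof. See `Pool/Agent/U207/QC`. `v(X)` is given by quadratic forms whose Jacobian matrix has large rank,
`P_i = (∑_j a_i^j h_j)^2 + ∑_t a_i^{B + κ t} Q_t(h)`, where the `Q_t` are generic combinations of these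
forms and the `a_i` are generic numbers. `P_i(h)` is the value at the node `a_i` of a polynomial in one
variable with coefficients depending on `h`. Along an entire curve the method of Büchi's problem (Vojta,
Pasten) shows that this polynomial is a square up to a factor, and then an argument with the
derivative shows that the curve is constant or all `Q_t(h)` are zero; for subvarieties this is done
with pluricanonical forms.
-/

set_option autoImplicit false

namespace Pool.Agent.Results.MP_c6ff8d_ag.QuadricCoversSuffice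

open MvPolynomial
open Pool.Agent.W602.GT (SubVar GeneralType)
open Pool.Agent.N254.SQ (IsForm OnCurves OnSpecial Monomials veronese)
open Pool.Agent.U207.QC (hI coverForm coverEqs SmoothCover Signs onSheet)

section

variable {n : ℕ} (S : Set (MvPolynomial (Fin (n + 1)) ℂ))

/-- all entire curves in `V(S)` are constant -/
def Hyperbolic : Prop :=
  ∀ f : ℂ → Fin (n + 1) → ℂ, Differentiable ℂ f → (∀ z, f z ≠ 0) →
    (∀ z, ∀ p ∈ S, eval (f z) p = 0) → ∀ z w, ∃ c : ℂ, f w = c • f z

/-- all irreducible closed subvarieties of positive dimension `w` (function field `L`, generic point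
`y`) of `V(S)` are of general type -/
def AllGeneral : Prop :=
  ∀ (L : Type) [Field L] [Algebra ℂ L] (w : ℕ) (y : Fin (n + 1) → L), 1 ≤ w →
    SubVar (fun p : S => (p : MvPolynomial (Fin (n + 1)) ℂ)) L w y → GeneralType ℂ L w

end

section

variable {n N c : ℕ} (m : Fin (N + 1) → Fin (n + 1) → ℕ) (S : Set (MvPolynomial (Fin (n + 1)) ℂ))
  (P : Fin c → MvPolynomial (Fin (N + 1)) ℂ)

/-- nonconstant entire curves in `Y` lie over `v(X)` -/
def CurvesOver : Prop :=
  ∀ f : ℂ → Fin (N + c + 1) → ℂ, Differentiable ℂ f → (∀ z, f z ≠ 0) →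
    (∀ z i, eval (f z) (coverForm P i) = 0) → (∀ z w, ∃ s : ℂ, f w = s • f z) ∨
      ∀ z, ∃ x : Fin (n + 1) → ℂ, x ≠ 0 ∧ (∀ p ∈ S, eval x p = 0) ∧
        f z ∘ hI N c = veronese m x

/-- closed subvarieties of `Y` of positive dimension are of general type or lie over `v(X)` -/
def SubvarietiesOver : Prop :=
  ∀ (L : Type) [Field L] [Algebra ℂ L] (w : ℕ) (y : Fin (N + c + 1) → L), 1 ≤ w →
    SubVar (coverForm P) L w y → GeneralType ℂ L w ∨
      ∃ (x : Fin (n + 1) → L) (s : L), x ≠ 0 ∧ s ≠ 0 ∧ (∀ p ∈ S, aeval x p = 0) ∧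
        y ∘ hI N c = s • veronese m x

end

section proof

variable {n : ℕ} {S : Set (MvPolynomial (Fin (n + 1)) ℂ)}

theorem curve_one : OnCurves S 1 ↔ Hyperbolic S := by
  constructor
  · intro h f h1 h2 h3
    rcases h f h1 h2 h3 with h5 | h5
    · exact h5
    · exact absurd (h5 0) (by rw [map_one]; exact one_ne_zero)
  · intro h f h1 h2 h3
    exact Or.inl (h f h1 h2 h3)

theorem general_one : OnSpecial S 1 ↔ AllGeneral S := by
  constructor
  · intro h L _ _ w y hw hy
    rcases h L w y hw hy with h5 | h5
    · exact h5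
    · exact absurd h5 (by rw [map_one]; exact one_ne_zero)
  · intro h L _ _ w y hw hy
    exact Or.inl (h L w y hw hy)

end proof

open Pool.Agent.U207.QC in
theorem result :
    (∀ n d : ℕ, 1 ≤ n → 3 ≤ d → ∃ (N : ℕ) (m : Fin (N + 1) → Fin (n + 1) → ℕ),
      Monomials n N d m ∧ ∀ c, (2 * (N + 1) ^ 3 + 6 * N + 5) ^ 2 ≤ c →
        ∀ S : Set (MvPolynomial (Fin (n + 1)) ℂ), (∀ p ∈ S, ∃ e ≤ d, p.IsHomogeneous e) →
        ∃ P ℓ : Fin c → MvPolynomial (Fin (N + 1)) ℂ,
          (∀ i, (P i).IsHomogeneous 2) ∧ (∀ i, (ℓ i).IsHomogeneous 1) ∧ SmoothCover P ∧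
          (∀ x : Fin (n + 1) → ℂ, (∀ p ∈ S, eval x p = 0) →
            ∀ i, eval (veronese m x) (P i) = eval (veronese m x) (ℓ i) ^ 2) ∧
          CurvesOver m S P ∧ SubvarietiesOver m S P ∧
          (Hyperbolic (coverEqs P) ↔ Hyperbolic S) ∧ (AllGeneral (coverEqs P) ↔ AllGeneral S)) ∧
    ∀ E : ℕ → Set ℕ, (∀ N, (E N).Infinite) →
      ((∀ (n : ℕ) (S : Set (MvPolynomial (Fin (n + 1)) ℂ)), (∀ p ∈ S, IsForm p) →
          Hyperbolic S → AllGeneral S) ↔
        ∀ (N c : ℕ) (P : Fin c → MvPolynomial (Fin (N + 1)) ℂ), c ∈ E N →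
          (∀ i, (P i).IsHomogeneous 2) → SmoothCover P →
          Hyperbolic (coverEqs P) → AllGeneral (coverEqs P)) ∧
      ((∀ (n : ℕ) (S : Set (MvPolynomial (Fin (n + 1)) ℂ)), (∀ p ∈ S, IsForm p) →
          AllGeneral S → Hyperbolic S) ↔
        ∀ (N c : ℕ) (P : Fin c → MvPolynomial (Fin (N + 1)) ℂ), c ∈ E N →
          (∀ i, (P i).IsHomogeneous 2) → SmoothCover P →
          AllGeneral (coverEqs P) → Hyperbolic (coverEqs P)) := by
  have hI' : Cl1 (fun _ S G => OnSpecial S G) := by
    have h1 := cl1_of (exc0_of (Pool.Agent.N254.SQ.t_qspec Pool.Agent.N254.SQ.t_cent)) covT_special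
    simp only [special_one] at h1
    exact h1
  have hJ : Cl1 (fun _ S G => OnCurves S G) := by
    have h1 := cl1_of (exc0_of Pool.Agent.N254.SQ.t_qcurv) covT_curves
    simp only [curves_one] at h1
    exact h1
  refine ⟨?_, fun E hE => ⟨?_, ?_⟩⟩
  · intro n d hn hd
    obtain ⟨N, m, hm, -, h⟩ := cons n d hn hd
    refine ⟨N, m, ⟨hm.deg, hm.inj, hm.surj⟩, fun c hc S hS => ?_⟩
    obtain ⟨P, ℓ, hsm, hg⟩ := h c hc S hS
    refine ⟨P, ℓ, hg.homP, hg.homL, hsm, fun x hx i => hg.sub ℂ x hx i, hg.curves,
      fun L _ _ w y hw hy => hg.special L w y hw (sub_set hy), ?_, ?_⟩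
    · rw [← curve_one, ← curve_one]
      exact hJ.one hg
    · rw [← general_one, ← general_one]
      exact hI'.one hg
  · have h1 := imp_one hJ hI' hE
    simp only [general_one, curve_one] at h1
    exact h1
  · have h1 := imp_one hI' hJ hE
    simp only [general_one, curve_one] at h1
    exact h1

end Pool.Agent.Results.MP_c6ff8d_ag.QuadricCoversSuffice
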